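import Mathlib
import Pool.Agent.H.MP_41c62e_nt.C

namespace Pool.Agent.Results.MP_41c62e_nt.Yes

open Set

/-- Points of `(0,1)` all of whose continued fraction digits (read off by the Gauss map) lie in `A`. -/
def J (A : Set ℕ) : Set ℝ :=
  {x | x ∈ Ioo (0 : ℝ) 1 ∧ ∀ i, ⌊1 / ((fun y : ℝ => Int.fract (1 / y))^[i] x)⌋₊ ∈ A}

/-- The dimension spectrum. -/
def DS (A : Set ℕ) : Set ℝ := {s | 0 ≤ s ∧ ∃ B ⊆ A, dimH (J B) = ENNReal.ofReal s}

/-- The powers `q, q², …` together with `1`. -/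
def P (q : ℕ) : Set ℕ := {a | ∃ n, 1 ≤ n ∧ a = q ^ n} ∪ {1}

theorem result (q : ℕ) (hq : 3 ≤ q) :
    IsNowhereDense (DS (P q) ∩ Ioi (Real.log 2 / (2 * Real.log q))) ∧
    IsNowhereDense (DS (P q) ∩
      Ioo (Real.log 2 / (2 * Real.log q)) (dimH (J (P q \ {q}))).toReal) :=
  ⟨Pool.Agent.H.MP_41c62e_nt.main q hq, (Pool.Agent.H.MP_41c62e_nt.main q hq).mono
    (inter_subset_inter_right _ Ioo_subset_Ioi_self)⟩

end Pool.Agent.Results.MP_41c62e_nt.Yes
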